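import Pool.Agent.Helper74.FP.Goals2

/-!
# Project FP, packet F10: a free product with one factor
-/

set_option autoImplicit false

namespace Pool.Agent.Helper70.FP

open Pool.Agent.Helper52.Wq2 Pool.Agent.Helper61.NW Pool.Agent.Helper74.FP Monoid

universe u

theorem of_bij (A : Fin 1 → Type u) [∀ l, Group (A l)] :
    Function.Bijective (CoprodI.of : A 0 →* CoprodI A) := by
  refine ⟨CoprodI.of_injective 0, fun x => ?_⟩
  induction x using CoprodI.induction_on with
  | one => exact ⟨1, map_one _⟩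
  | of i m =>
    obtain rfl : i = 0 := Subsingleton.elim _ _
    exact ⟨m, rfl⟩
  | mul x y hx hy =>
    obtain ⟨a, ha⟩ := hx
    obtain ⟨b, hb⟩ := hy
    exact ⟨a * b, by rw [map_mul, ha, hb]⟩

theorem mem_US (A : Fin 1 → Type u) [∀ l, Group (A l)] (S : ∀ l, Set (A l)) (g : A 0) :
    (CoprodI.of g : CoprodI A) ∈ US S ↔ g ∈ S 0 := by
  constructor
  · rintro ⟨i, s, hs, h⟩
    obtain rfl : i = 0 := Subsingleton.elim _ _
    rw [(of_bij A).1 h]
    exact hs
  · intro h
    exact ⟨0, g, h, rfl⟩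

theorem f10 : F10Stmt.{u} := by
  intro A _ S
  refine ⟨⟨Equiv.ofBijective _ (of_bij A), ?_⟩⟩
  intro a b
  simp only [Equiv.ofBijective_apply, cay, SimpleGraph.fromRel_adj]
  rw [← map_inv, ← map_inv, ← map_mul, ← map_mul, mem_US, mem_US, (of_bij A).1.ne_iff]

end Pool.Agent.Helper70.FP
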